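import Pool.Agent.helper96.LK.SpecH

/-!
# Module lk:BU — uniqueness of base points
-/

open Finset Filter Polynomial

namespace Pool.Agent.LK

theorem BU : BU_stmt := by
  intro a ha P P' o hP hP' h
  obtain ⟨i, k⟩ := o
  obtain ⟨p, q⟩ := P
  obtain ⟨p', q'⟩ := P'
  simp only [shift, Prod.mk.injEq] at h
  obtain ⟨h1, h2⟩ := h
  simp only [Reg] at hP hP'
  have b1 : p' - p ≤ a - 2 := by omega
  have b2 : -(a - 2) ≤ p' - p := by omega
  have b3 : q' - q ≤ 2 * a - 2 := by omega
  have b4 : -(2 * a - 2) ≤ q' - q := by omega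
  have e : (a * a - 1) * i = a * (p' - p) - (q' - q) := by rw [h1, h2]; ring
  have c1 : a * (p' - p) ≤ a * (a - 2) := mul_le_mul_of_nonneg_left b1 (by omega)
  have c2 : a * (-(a - 2)) ≤ a * (p' - p) := mul_le_mul_of_nonneg_left b2 (by omega)
  have hi : i = 0 := by
    rcases lt_trichotomy i 0 with h0 | h0 | h0
    · exfalso
      have : (a * a - 1) * i ≤ (a * a - 1) * (-1) :=
        mul_le_mul_of_nonneg_left (by omega) (by nlinarith)
      nlinarith
    · exact h0
    · exfalso
      have : (a * a - 1) * 1 ≤ (a * a - 1) * i :=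
        mul_le_mul_of_nonneg_left (by omega) (by nlinarith)
      nlinarith
  subst hi
  have hk1 : k < 2 := by
    by_contra hk
    have : 2 * a ≤ k * a := mul_le_mul_of_nonneg_right (by omega) (by omega)
    omega
  have hk2 : -2 < k := by
    by_contra hk
    have : k * a ≤ (-2) * a := mul_le_mul_of_nonneg_right (by omega) (by omega)
    omega
  have hk : k = -1 ∨ k = 0 ∨ k = 1 := by omega
  rcases hk with rfl | rfl | rfl
  · exfalso; omega
  · rfl
  · exfalso; omega

end Pool.Agent.LK
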