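import Pool.Agent.helper96.LK.SpecH

/-!
# Module lk:CLS — splitting of a relation into similarity classes
-/

open Finset Filter Polynomial

namespace Pool.Agent.LK

/-- the two binomial sequences differ by a rational factor -/
def CLS_R (x y : ℚ) : Prop :=
  ∃ U V : Polynomial ℂ, U ≠ 0 ∧ V ≠ 0 ∧
    ∀ j : ℕ, V.eval (j : ℂ) * ((ch y j : ℚ) : ℂ) = U.eval (j : ℂ) * ((ch x j : ℚ) : ℂ)

theorem CLS_refl (x : ℚ) : CLS_R x x := ⟨1, 1, one_ne_zero, one_ne_zero, fun _ => rfl⟩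

theorem CLS_symm {x y : ℚ} (h : CLS_R x y) : CLS_R y x := by
  obtain ⟨U, V, hU, hV, e⟩ := h
  exact ⟨V, U, hV, hU, fun j => (e j).symm⟩

theorem CLS_trans {x y z : ℚ} (h : CLS_R x y) (h' : CLS_R y z) : CLS_R x z := by
  obtain ⟨U, V, hU, hV, e⟩ := h
  obtain ⟨U', V', hU', hV', e'⟩ := h'
  refine ⟨U * U', V * V', mul_ne_zero hU hU', mul_ne_zero hV hV', fun j => ?_⟩
  rw [eval_mul, eval_mul]
  calc V.eval (j : ℂ) * V'.eval (j : ℂ) * ((ch z j : ℚ) : ℂ)
      = V.eval (j : ℂ) * (V'.eval (j : ℂ) * ((ch z j : ℚ) : ℂ)) := by ring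
    _ = U'.eval (j : ℂ) * (V.eval (j : ℂ) * ((ch y j : ℚ) : ℂ)) := by rw [e']; ring
    _ = U.eval (j : ℂ) * U'.eval (j : ℂ) * ((ch x j : ℚ) : ℂ) := by rw [e]; ring

theorem CLS_one {x : ℚ} (hx : x ≠ 0) : CLS_R x (x - 1) := by
  refine ⟨C ((x : ℚ) : ℂ) - X, C ((x : ℚ) : ℂ), ?_, ?_, fun j => ?_⟩
  · intro h
    have h1 := congrArg (fun q : Polynomial ℂ => q.coeff 1) h
    simp at h1
  · rw [Ne, C_eq_zero]
    exact_mod_cast hx
  · have h := ch_sub_one x j
    have h2 : (((ch (x - 1) j * x : ℚ)) : ℂ) = ((ch x j * (x - j) : ℚ) : ℂ) := by rw [h]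
    push_cast at h2
    rw [eval_C, eval_sub, eval_C, eval_X]
    linear_combination h2

theorem CLS_nat {x : ℚ} (hx : ∀ z : ℤ, x ≠ z) (n : ℕ) : CLS_R x (x - n) := by
  induction n with
  | zero => simpa using CLS_refl x
  | succ n ih =>
    have h1 : CLS_R (x - n) (x - n - 1) := CLS_one (fun h => hx n (by push_cast; linarith))
    have h2 := CLS_trans ih h1
    have e : x - ((n + 1 : ℕ) : ℚ) = x - n - 1 := by push_cast; ring
    rw [e]; exact h2

theorem CLS_int {x y : ℚ} (hx : ∀ z : ℤ, x ≠ z) (hy : ∀ z : ℤ, y ≠ z) (h : ∃ z : ℤ, y - x = z) :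
    CLS_R x y := by
  obtain ⟨z, hz⟩ := h
  rcases le_total 0 z with h0 | h0
  · obtain ⟨n, rfl⟩ := Int.eq_ofNat_of_zero_le h0
    have h1 := CLS_nat hy n
    have e : y - (n : ℚ) = x := by push_cast at hz; linarith
    rw [e] at h1
    exact CLS_symm h1
  · obtain ⟨n, hn⟩ := Int.eq_ofNat_of_zero_le (neg_nonneg.2 h0)
    have h1 := CLS_nat hx n
    have hz' : z = -(n : ℤ) := by omega
    have e : x - (n : ℚ) = y := by rw [hz'] at hz; push_cast at hz; linarith
    rw [e] at h1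
    exact h1

theorem CLS_ev {V : Polynomial ℂ} (hV : V ≠ 0) : ∀ᶠ j : ℕ in atTop, V.eval (j : ℂ) ≠ 0 := by
  have h1 : Set.Finite {j : ℕ | V.eval (j : ℂ) = 0} := by
    have h2 : Set.Finite {z : ℂ | V.IsRoot z} := Polynomial.finite_setOfPred_isRoot hV
    exact h2.preimage (f := fun j : ℕ => (j : ℂ)) (Nat.cast_injective.injOn)
  obtain ⟨N, hN⟩ := h1.bddAbove
  filter_upwards [eventually_gt_atTop N] with j hj h
  exact absurd (hN h) (by omega)

theorem CLS (hHYP : HYP_stmt) : CLS_stmt := by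
  intro ι _ κ _ c x y hx hy hc hs p hrel v
  classical
  have h1 : ∀ i k, c i = c k → ∃ U V : Polynomial ℂ, V ≠ 0 ∧ ∀ j : ℕ,
      V.eval (j : ℂ) * ((ch (x i) j * ch (y i) j : ℚ) : ℂ) =
        U.eval (j : ℂ) * ((ch (x k) j * ch (y k) j : ℚ) : ℂ) := by
    intro i k h
    obtain ⟨⟨z, hz⟩, z', hz'⟩ := hc i k h
    obtain ⟨U, V, hU, hV, e⟩ := CLS_int (hx k) (hx i) ⟨z, hz⟩
    obtain ⟨U', V', hU', hV', e'⟩ := CLS_int (hy k) (hy i) ⟨z', hz'⟩
    refine ⟨U * U', V * V', mul_ne_zero hV hV', fun j => ?_⟩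
    rw [eval_mul, eval_mul]
    push_cast
    have a1 := e j
    have a2 := e' j
    calc V.eval (j : ℂ) * V'.eval (j : ℂ) * (((ch (x i) j : ℚ) : ℂ) * ((ch (y i) j : ℚ) : ℂ))
        = (V.eval (j : ℂ) * ((ch (x i) j : ℚ) : ℂ)) *
          (V'.eval (j : ℂ) * ((ch (y i) j : ℚ) : ℂ)) := by ring
      _ = U.eval (j : ℂ) * U'.eval (j : ℂ) *
          (((ch (x k) j : ℚ) : ℂ) * ((ch (y k) j : ℚ) : ℂ)) := by rw [a1, a2]; ring
  let K : Type := Set.range c
  let g : ι → K := fun i => ⟨c i, i, rfl⟩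
  choose r hr using (fun w : K => w.2)
  have hg : ∀ i, c i = c (r (g i)) := fun i => (hr (g i)).symm
  choose U V hV hUV using fun i => h1 i (r (g i)) (hg i)
  let W : ι → Polynomial ℂ := fun i => p i * (∏ k ∈ univ.erase i, V k) * U i
  have key : ∀ i (j : ℕ), (∏ k, V k).eval (j : ℂ) *
      ((p i).eval (j : ℂ) * ((ch (x i) j * ch (y i) j : ℚ) : ℂ)) =
      (W i).eval (j : ℂ) * ((ch (x (r (g i))) j * ch (y (r (g i))) j : ℚ) : ℂ) := by
    intro i j
    have e1 : (∏ k, V k) = V i * ∏ k ∈ univ.erase i, V k := (mul_prod_erase univ V (mem_univ i)).symm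
    have e2 := hUV i j
    simp only [W]
    rw [e1, eval_mul, eval_mul, eval_mul]
    linear_combination (p i).eval (j : ℂ) * (∏ k ∈ univ.erase i, V k).eval (j : ℂ) * e2
  have hP : ∀ w : K, (∑ i with g i = w, W i) = 0 := by
    apply hHYP K (fun w => x (r w)) (fun w => y (r w)) (fun w => hx _) (fun w => hy _)
    · intro w w' hne
      apply hs
      rw [hr w, hr w']
      exact fun h => hne (Subtype.ext h)
    · filter_upwards [hrel] with j hj
      have e1 : (∑ w : K, (∑ i with g i = w, W i).eval (j : ℂ) *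
          ((ch (x (r w)) j * ch (y (r w)) j : ℚ) : ℂ)) =
          ∑ w : K, ∑ i with g i = w, (∏ k, V k).eval (j : ℂ) *
            ((p i).eval (j : ℂ) * ((ch (x i) j * ch (y i) j : ℚ) : ℂ)) := by
        refine sum_congr rfl fun w _ => ?_
        rw [eval_finsetSum, sum_mul]
        refine sum_congr rfl fun i hi => ?_
        rw [key i j, (mem_filter.1 hi).2]
      rw [e1, sum_fiberwise, ← mul_sum, hj, mul_zero]
  by_cases hv : ∃ i, c i = v
  · have hPv := hP ⟨v, hv⟩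
    have hprod : (∏ k, V k) ≠ 0 := prod_ne_zero_iff.2 fun k _ => hV k
    filter_upwards [CLS_ev hprod] with j hj
    apply (mul_eq_zero.1 ?_).resolve_left hj
    rw [mul_sum]
    have e2 : (∑ i with c i = v, (∏ k, V k).eval (j : ℂ) *
        ((p i).eval (j : ℂ) * ((ch (x i) j * ch (y i) j : ℚ) : ℂ))) =
        ∑ i with g i = (⟨v, hv⟩ : K), (W i).eval (j : ℂ) *
          ((ch (x (r ⟨v, hv⟩)) j * ch (y (r ⟨v, hv⟩)) j : ℚ) : ℂ) := by
      have e3 : (univ.filter fun i => c i = v) = univ.filter fun i => g i = (⟨v, hv⟩ : K) := by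
        ext i
        simp only [mem_filter, mem_univ, true_and, g]
        exact ⟨fun h => Subtype.ext h, fun h => congrArg Subtype.val h⟩
      rw [e3]
      refine sum_congr rfl fun i hi => ?_
      rw [key i j, (mem_filter.1 hi).2]
    rw [e2, ← sum_mul, ← eval_finsetSum, hPv, eval_zero, zero_mul]
  · refine Filter.Eventually.of_forall fun j => ?_
    rw [filter_false_of_mem, sum_empty]
    exact fun i _ h => hv ⟨i, h⟩

end Pool.Agent.LK
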