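import Pool.Agent.helper96.LK.SpecH

/-!
# Module lk:PQ — the pattern of `isQ`
-/

open Finset Filter Polynomial

namespace Pool.Agent.LK

theorem PQ_quad {u v w : ℂ} (h : ∀ᶠ j : ℕ in atTop, u * (j : ℂ) ^ 2 + v * j + w = 0) :
    u = 0 ∧ v = 0 ∧ w = 0 := by
  obtain ⟨N, hN⟩ := eventually_atTop.1 h
  have e0 := hN N le_rfl
  have e1 := hN (N + 1) (by omega)
  have e2 := hN (N + 2) (by omega)
  push_cast at e1 e2
  have hu : u = 0 := by linear_combination (e2 - 2 * e1 + e0) / 2
  subst hu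
  have hv : v = 0 := by linear_combination e1 - e0
  subst hv
  exact ⟨rfl, rfl, by linear_combination e0⟩

/-- complex version of the term -/
noncomputable def PQ_G (a : ℤ) (P : Pt) (i k : ℤ) (j : ℕ) : ℂ :=
  ((sg a (shift a P (i, k)) j : ℚ) : ℂ)

theorem PQ_b {a : ℤ} (ha : 2 ≤ a) (P : Pt) (i k : ℤ) (j : ℕ) :
    PQ_G a P i (k + 1) j * ((yy a P : ℚ) - k : ℂ) =
      PQ_G a P i k j * ((yy a P : ℚ) - k - j : ℂ) := by
  have h := sg_beta ha (shift a P (i, k)) j
  rw [shift_shift, yy_shift ha] at h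
  simp only [Prod.mk_add_mk, add_zero] at h
  have h2 := congrArg (fun q : ℚ => (q : ℂ)) h
  simp only [PQ_G]
  push_cast at h2
  linear_combination h2

theorem PQ_a {a : ℤ} (ha : 2 ≤ a) (P : Pt) (i k : ℤ) (j : ℕ) :
    PQ_G a P (i + 2) k j * ((xx a P : ℚ) - i / 2 : ℂ) =
      PQ_G a P i k j * ((xx a P : ℚ) - i / 2 - j : ℂ) := by
  have h := sg_alpha2 ha (shift a P (i, k)) j
  rw [shift_shift, xx_shift ha] at h
  simp only [Prod.mk_add_mk, add_zero] at h
  have h2 := congrArg (fun q : ℚ => (q : ℂ)) h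
  simp only [PQ_G]
  push_cast at h2
  linear_combination h2

theorem PQ_ne (hNI : NI_stmt) {a dl : ℤ} (ha : 11 ≤ a) (h0 : 0 ≤ dl) (h1 : dl ≤ 1) {P : Pt}
    (hP : P ∈ BB a dl) (i k : ℤ) (j : ℕ) : PQ_G a P i k j ≠ 0 := by
  rw [PQ_G, sg]
  have h := hNI a dl ha h0 h1 P hP (i, k)
  exact_mod_cast mul_ne_zero (ch_ne_zero (fun z => (h z).1) j) (ch_ne_zero (fun z => (h z).2) j)

theorem PQ (hNI : NI_stmt) : PQ_stmt := by
  intro a dl ha h0 h1 P hP hQ A B hR
  obtain ⟨hR0, hR1⟩ := hR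
  have hne := PQ_ne hNI ha h0 h1 hP
  have hxy := hNI a dl ha h0 h1 P hP (0, 0)
  rw [shift_zero] at hxy
  have hx : ∀ z : ℤ, ((xx a P : ℚ) : ℂ) - z ≠ 0 := by
    intro z h
    exact (hxy z).1 (by exact_mod_cast sub_eq_zero.1 h)
  have hy : ∀ z : ℤ, ((yy a P : ℚ) : ℂ) - z ≠ 0 := by
    intro z h
    exact (hxy z).2 (by exact_mod_cast sub_eq_zero.1 h)
  have ha2 : 2 ≤ a := by omega
  have nS : ¬isS dl P := by simp only [isS, isQ] at hQ ⊢; omega
  have nT : ¬isT a dl P := by simp only [isT, isQ] at hQ ⊢; omega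
  have nU : ¬isU a dl P := by simp only [isU, isQ] at hQ ⊢; omega
  have nW : ¬isW a dl P := by simp only [isW, isQ] at hQ ⊢; omega
  have nV : ¬isV a dl P := by simp only [isV, isQ] at hQ ⊢; omega
  have hLA : LA a dl P = {(0, 0)} ∪ (if a - 1 ≤ P.2 then {(1, -1)} else ∅) ∪
      (if 2 * a - 2 ≤ P.2 then {(2, -2)} else ∅) := by
    rw [LA, if_neg nS, if_neg nT, if_neg nU, if_neg nW, if_neg nV, if_pos hQ]
  have hLB : LB a dl P = L0 P ∪ (if a ≤ P.2 then {(1, -1)} else ∅) := by
    rw [LB, if_neg nS, if_neg (by tauto), if_neg nV, if_pos hQ]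
  have b1 := fun j => PQ_b ha2 P 1 (-1) j
  have b0 := fun j => PQ_b ha2 P 1 0 j
  have b2 := fun j => PQ_b ha2 P 2 (-2) j
  have b3 := fun j => PQ_b ha2 P 2 (-1) j
  have a0 := fun j => PQ_a ha2 P 0 0 j
  have hx0 := hx 0
  have hy0 := hy 0
  have hy1 := hy (-1)
  have hy2 := hy (-2)
  norm_num at b1 b0 b2 b3 a0 hx0 hy0 hy1 hy2
  by_cases hP1 : 1 ≤ P.1
  · have hP2 : 1 ≤ P.2 ∧ P.2 ≤ a - 1 := by simp only [isQ] at hQ; omega
    have hLB' : LB a dl P = {(0, 0)} := by
      rw [hLB, L0, if_pos ⟨hP1, hP2.1⟩, if_neg (by omega)]; rfl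
    rw [if_neg (show ¬2 * a - 2 ≤ P.2 by omega), union_empty] at hLA
    by_cases hc : a - 1 ≤ P.2
    · have hLA' : LA a dl P = {(0, 0), (1, -1)} := by
        rw [hLA, if_pos hc]; rfl
      have e0 : ∀ j : ℕ, Rel a dl A B P 0 j =
          A (0, 0) * (j * PQ_G a P 0 0 j) + B (0, 0) * PQ_G a P 0 2 j := by
        intro j
        rw [Rel, hLA', hLB']
        simp [PQ_G, Finset.sum_filter]
      have e1 : ∀ j : ℕ, Rel a dl A B P 1 j =
          A (1, -1) * (j * PQ_G a P 1 (-1) j) - B (0, 0) * PQ_G a P 1 0 j := by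
        intro j
        rw [Rel, hLA', hLB']
        simp [PQ_G, Finset.sum_filter]
      have hq : ∀ᶠ j : ℕ in atTop, (0 : ℂ) * (j : ℂ) ^ 2 +
          (A (1, -1) * ((yy a P : ℚ) + 1) + B (0, 0)) * j + (-(B (0, 0) * ((yy a P : ℚ) + 1))) = 0 := by
        filter_upwards [hR1] with j hj
        rw [e1] at hj
        have hg := hne 1 (-1) j
        apply (mul_eq_zero.1 ?_).resolve_left hg
        linear_combination ((yy a P : ℚ) + 1 : ℂ) * hj + B (0, 0) * b1 j
      obtain ⟨-, q1, q0⟩ := PQ_quad hq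
      have hB : B (0, 0) = 0 := by
        rcases mul_eq_zero.1 (neg_eq_zero.1 q0) with h | h
        · exact h
        · exact absurd h hy1
      have hc0 : A (1, -1) = 0 := by
        rw [hB, add_zero] at q1
        rcases mul_eq_zero.1 q1 with h | h
        · exact h
        · exact absurd h hy1
      have hA0 : A (0, 0) = 0 := by
        obtain ⟨j, hj, hj1⟩ := (hR0.and (eventually_ge_atTop 1)).exists
        rw [e0, hB, zero_mul, add_zero] at hj
        have hj2 : (j : ℂ) ≠ 0 := by exact_mod_cast (show j ≠ 0 by omega)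
        rcases mul_eq_zero.1 hj with h | h
        · exact h
        · exact absurd h (mul_ne_zero hj2 (hne 0 0 j))
      refine ⟨fun o ho => ?_, fun o ho => ?_⟩
      · rw [hLA', mem_insert, mem_singleton] at ho
        rcases ho with rfl | rfl
        · exact hA0
        · exact hc0
      · rw [hLB', mem_singleton] at ho
        rw [ho, hB]
    · have hLA' : LA a dl P = {(0, 0)} := by
        rw [hLA, if_neg hc]; rfl
      have e0 : ∀ j : ℕ, Rel a dl A B P 0 j =
          A (0, 0) * (j * PQ_G a P 0 0 j) + B (0, 0) * PQ_G a P 0 2 j := by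
        intro j
        rw [Rel, hLA', hLB']
        simp [PQ_G, Finset.sum_filter]
      have e1 : ∀ j : ℕ, Rel a dl A B P 1 j = -(B (0, 0) * PQ_G a P 1 0 j) := by
        intro j
        rw [Rel, hLA', hLB']
        simp [PQ_G, Finset.sum_filter]
      have hB : B (0, 0) = 0 := by
        obtain ⟨j, hj⟩ := hR1.exists
        rw [e1] at hj
        rcases mul_eq_zero.1 (neg_eq_zero.1 hj) with h | h
        · exact h
        · exact absurd h (hne 1 0 j)
      have hA0 : A (0, 0) = 0 := by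
        obtain ⟨j, hj, hj1⟩ := (hR0.and (eventually_ge_atTop 1)).exists
        rw [e0, hB, zero_mul, add_zero] at hj
        have hj2 : (j : ℂ) ≠ 0 := by exact_mod_cast (show j ≠ 0 by omega)
        rcases mul_eq_zero.1 hj with h | h
        · exact h
        · exact absurd h (mul_ne_zero hj2 (hne 0 0 j))
      refine ⟨fun o ho => ?_, fun o ho => ?_⟩
      · rw [hLA', mem_singleton] at ho
        rw [ho, hA0]
      · rw [hLB', mem_singleton] at ho
        rw [ho, hB]
  · have hP2 : P.1 = 0 ∧ a ≤ P.2 := by simp only [isQ] at hQ; omega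
    have hLB' : LB a dl P = {(1, -1)} := by
      rw [hLB, L0, if_neg (fun h => hP1 h.1), if_pos hP2.2]; rfl
    rw [if_pos (show a - 1 ≤ P.2 by omega)] at hLA
    have e1 : ∀ j : ℕ, Rel a dl A B P 1 j =
        A (1, -1) * (j * PQ_G a P 1 (-1) j) + B (1, -1) * PQ_G a P 1 1 j := by
      intro j
      by_cases hc : 2 * a - 2 ≤ P.2
      · rw [Rel, hLA, if_pos hc, hLB', show ({(0, 0)} ∪ {(1, -1)} ∪ {(2, -2)} : Finset Pt) =
          {(0, 0), (1, -1), (2, -2)} from rfl]
        simp [PQ_G, Finset.sum_filter]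
      · rw [Rel, hLA, if_neg hc, hLB', show ({(0, 0)} ∪ {(1, -1)} ∪ ∅ : Finset Pt) =
          {(0, 0), (1, -1)} from rfl]
        simp [PQ_G, Finset.sum_filter]
    have hq : ∀ᶠ j : ℕ in atTop, B (1, -1) * (j : ℂ) ^ 2 +
        (A (1, -1) * ((yy a P : ℚ) * ((yy a P : ℚ) + 1)) - B (1, -1) * (2 * (yy a P : ℚ) + 1)) * j +
        B (1, -1) * ((yy a P : ℚ) * ((yy a P : ℚ) + 1)) = 0 := by
      filter_upwards [hR1] with j hj
      rw [e1] at hj
      have hg := hne 1 (-1) j
      apply (mul_eq_zero.1 ?_).resolve_left hg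
      linear_combination ((yy a P : ℚ) * ((yy a P : ℚ) + 1) : ℂ) * hj -
        B (1, -1) * ((yy a P : ℚ) + 1) * b0 j - B (1, -1) * ((yy a P : ℚ) - j) * b1 j
    obtain ⟨hB, q1, -⟩ := PQ_quad hq
    have hc0 : A (1, -1) = 0 := by
      rw [hB, zero_mul, sub_zero] at q1
      rcases mul_eq_zero.1 q1 with h | h
      · exact h
      · exact absurd h (mul_ne_zero (by exact_mod_cast hy0) hy1)
    by_cases hc : 2 * a - 2 ≤ P.2
    · have hLA' : LA a dl P = {(0, 0), (1, -1), (2, -2)} := by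
        rw [hLA, if_pos hc]; rfl
      have e0 : ∀ j : ℕ, Rel a dl A B P 0 j =
          A (0, 0) * (j * PQ_G a P 0 0 j) + A (2, -2) * (j * PQ_G a P 2 (-2) j) -
            B (1, -1) * PQ_G a P 2 (-1) j := by
        intro j
        rw [Rel, hLA', hLB']
        simp [PQ_G, Finset.sum_filter]
      have hq : ∀ᶠ j : ℕ in atTop, A (0, 0) * (xx a P : ℚ) * (j : ℂ) ^ 2 +
          (-(A (0, 0) * (xx a P : ℚ) * (2 * (yy a P : ℚ) + 3)) -
            A (2, -2) * (((yy a P : ℚ) + 1) * ((yy a P : ℚ) + 2))) * j +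
          (A (0, 0) * (xx a P : ℚ) * (((yy a P : ℚ) + 1) * ((yy a P : ℚ) + 2)) +
            A (2, -2) * (xx a P : ℚ) * (((yy a P : ℚ) + 1) * ((yy a P : ℚ) + 2))) = 0 := by
        filter_upwards [hR0, eventually_ge_atTop 1] with j hj hj1
        rw [e0, hB] at hj
        have hj2 : (j : ℂ) ≠ 0 := by exact_mod_cast (show j ≠ 0 by omega)
        have hg := mul_ne_zero hj2 (hne 2 (-2) j)
        apply (mul_eq_zero.1 ?_).resolve_left hg
        have k1 : PQ_G a P 0 0 j * ((xx a P : ℚ) - j) * (((yy a P : ℚ) + 1) * ((yy a P : ℚ) + 2)) =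
            PQ_G a P 2 (-2) j * ((xx a P : ℚ) * ((yy a P : ℚ) + 1 - j) * ((yy a P : ℚ) + 2 - j)) := by
          linear_combination (-(((yy a P : ℚ) + 1) * ((yy a P : ℚ) + 2)) : ℂ) * a0 j +
            ((xx a P : ℚ) * ((yy a P : ℚ) + 2) : ℂ) * b3 j +
            ((xx a P : ℚ) * ((yy a P : ℚ) + 1 - j) : ℂ) * b2 j
        linear_combination (((xx a P : ℚ) - j) * (((yy a P : ℚ) + 1) * ((yy a P : ℚ) + 2)) : ℂ) * hj -
          A (0, 0) * j * k1
      obtain ⟨q2, q1, -⟩ := PQ_quad hq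
      have hA0 : A (0, 0) = 0 := by
        rcases mul_eq_zero.1 q2 with h | h
        · exact h
        · exact absurd h (by exact_mod_cast hx0)
      have hA2 : A (2, -2) = 0 := by
        rw [hA0] at q1
        have q1' : A (2, -2) * (((yy a P : ℚ) + 1) * ((yy a P : ℚ) + 2)) = 0 := by
          linear_combination -q1
        rcases mul_eq_zero.1 q1' with h | h
        · exact h
        · exact absurd h (mul_ne_zero hy1 hy2)
      refine ⟨fun o ho => ?_, fun o ho => ?_⟩
      · rw [hLA', mem_insert, mem_insert, mem_singleton] at ho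
        rcases ho with rfl | rfl | rfl
        · exact hA0
        · exact hc0
        · exact hA2
      · rw [hLB', mem_singleton] at ho
        rw [ho, hB]
    · have hLA' : LA a dl P = {(0, 0), (1, -1)} := by
        rw [hLA, if_neg hc]; rfl
      have e0 : ∀ j : ℕ, Rel a dl A B P 0 j =
          A (0, 0) * (j * PQ_G a P 0 0 j) - B (1, -1) * PQ_G a P 2 (-1) j := by
        intro j
        rw [Rel, hLA', hLB']
        simp [PQ_G, Finset.sum_filter]
      have hA0 : A (0, 0) = 0 := by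
        obtain ⟨j, hj, hj1⟩ := (hR0.and (eventually_ge_atTop 1)).exists
        rw [e0, hB, zero_mul, sub_zero] at hj
        have hj2 : (j : ℂ) ≠ 0 := by exact_mod_cast (show j ≠ 0 by omega)
        rcases mul_eq_zero.1 hj with h | h
        · exact h
        · exact absurd h (mul_ne_zero hj2 (hne 0 0 j))
      refine ⟨fun o ho => ?_, fun o ho => ?_⟩
      · rw [hLA', mem_insert, mem_singleton] at ho
        rcases ho with rfl | rfl
        · exact hA0
        · exact hc0
      · rw [hLB', mem_singleton] at ho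
        rw [ho, hB]

end Pool.Agent.LK
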