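import Pool.Agent.helper96.LK.SpecR
import Pool.Agent.helper59.LD.RealG

/-!
# Module lk:RB — the real family
-/

open PowerSeries Filter Topology Set

noncomputable section

namespace Pool.Agent.LK

open Pool.Agent.helper59.LC Pool.Agent.helper59.LD

theorem RB_Hb {dn : MvPolynomial (Fin 2) ℂ} (hd : csw dn = dn)
    (h : Fin 2 → MvPolynomial (Fin 2) ℂ) (b : Bool) :
    Hb (fun j => dn * h j) b = dn * Hb h b := by
  rw [Hb, Hb]
  split_ifs
  · rw [map_mul, hd]; ring
  · rw [map_mul, hd]; ring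

theorem RB : RB_stmt := by
  classical
  intro n K Q
  set Hf : Fin (K + 1) × Bool → MvPolynomial (Fin 2) ℂ := fun x => Hb (Q.h x.1) x.2 with hHf
  set ρ : Fin (K + 1) × Bool → ℕ → ℝ := fun o μ =>
    (MMp Q.R.p Q.R.g Q.R.lam (pr (Q.dn * Hf o)) 0 μ).re with hρ
  have hMM : ∀ o μ, MM Q.R.p Q.R.g Q.R.lam (pr (Q.dn * Hf o)) μ = 2 * ((ρ o μ : ℝ) : ℂ) := by
    intro o μ
    rw [(conj_MM_pr Q.R.low Q.R.preal Q.R.greal Q.R.lconst Q.R.lreal (Q.dn * Hf o) μ).2]
    push_cast
    rfl
  obtain ⟨b, -, hb1, hb2, hb3⟩ :=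
    exists_linearIndepOn_extension (linearIndepOn_empty ℝ ρ) (Set.subset_univ _)
  set u : Fin (K + 1) → ℕ → ℂ := fun i μ =>
    MM Q.R.p Q.R.g Q.R.lam (fun j => Q.dn * Q.h i j) μ with hu
  have hui : LinearIndependent ℂ u := Q.ind
  -- embedding of the real sequences
  set J : (ℕ → ℝ) →ₗ[ℝ] (ℕ → ℂ) :=
    { toFun := fun f μ => ((f μ : ℝ) : ℂ)
      map_add' := fun f f' => by funext μ; simp
      map_smul' := fun c f => by funext μ; simp } with hJ
  have hspanR : ∀ o, J (ρ o) ∈ Submodule.span ℂ (J '' (ρ '' b)) := by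
    intro o
    have h1 : ρ o ∈ Submodule.span ℝ (ρ '' b) := hb2 ⟨o, Set.mem_univ _, rfl⟩
    have h2 : J (ρ o) ∈ (Submodule.span ℝ (ρ '' b)).map J := Submodule.mem_map_of_mem h1
    rw [Submodule.map_span] at h2
    exact Submodule.span_le_restrictScalars ℝ ℂ _ h2
  have hMMJ : ∀ o, (fun μ => MM Q.R.p Q.R.g Q.R.lam (pr (Q.dn * Hf o)) μ) =
      (2 : ℂ) • J (ρ o) := by
    intro o
    funext μ
    rw [hMM]
    rfl
  have huspan : ∀ o, u o ∈ Submodule.span ℂ (J '' (ρ '' b)) := by
    intro i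
    have h1 : u i =
        (1 / 2 : ℂ) • (fun μ => MM Q.R.p Q.R.g Q.R.lam (pr (Q.dn * Hf (i, true))) μ) +
        (1 / (2 * Complex.I) : ℂ) •
          (fun μ => MM Q.R.p Q.R.g Q.R.lam (pr (Q.dn * Hf (i, false))) μ) := by
      funext μ
      have h2 := MM_Hb (p := Q.R.p) (g := Q.R.g) (lam := Q.R.lam) (fun j => Q.dn * Q.h i j) μ
      rw [RB_Hb Q.dreal, RB_Hb Q.dreal] at h2
      exact h2
    rw [h1, hMMJ (i, true), hMMJ (i, false)]
    exact Submodule.add_mem _
      (Submodule.smul_mem _ _ (Submodule.smul_mem _ _ (hspanR (i, true))))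
      (Submodule.smul_mem _ _ (Submodule.smul_mem _ _ (hspanR (i, false))))
  have hfin : b.Finite := Set.toFinite b
  have hSfin : (J '' (ρ '' b)).Finite := (hfin.image ρ).image J
  have hcard : K + 1 ≤ b.ncard := by
    have : Module.Finite ℂ (Submodule.span ℂ (J '' (ρ '' b))) :=
      FiniteDimensional.span_of_finite ℂ hSfin
    set u' : Fin (K + 1) → Submodule.span ℂ (J '' (ρ '' b)) := fun o => ⟨u o, huspan o⟩
      with hu'
    have hu'i : LinearIndependent ℂ u' :=
      LinearIndependent.of_comp (Submodule.subtype _) hui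
    have h1 := hu'i.fintype_card_le_finrank
    rw [Fintype.card_fin] at h1
    refine h1.trans ?_
    have h2 : Module.finrank ℂ (Submodule.span ℂ (J '' (ρ '' b))) ≤
        (J '' (ρ '' b)).ncard := by
      have := hSfin.fintype
      have h3 := finrank_span_le_card (R := ℂ) (J '' (ρ '' b))
      rwa [Set.ncard_eq_toFinset_card']
    exact h2.trans ((Set.ncard_image_le (hfin.image ρ)).trans (Set.ncard_image_le hfin))
  -- selection
  set B : Finset (Fin (K + 1) × Bool) := hfin.toFinset with hB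
  have hBc : B.card = b.ncard := (Set.ncard_eq_toFinset_card b hfin).symm
  have hEc : K + 1 ≤ B.card := by omega
  obtain ⟨t, ht, htc⟩ := Finset.exists_subset_card_eq hEc
  set et := (Finset.equivFinOfCardEq htc).symm with het
  set f : Fin (K + 1) → Fin (K + 1) × Bool := fun i => (et i : Fin (K + 1) × Bool) with hf
  have hfb : ∀ i, f i ∈ b := fun i => hfin.mem_toFinset.1 (ht (et i).2)
  have hfinj : Function.Injective f := fun i j hij => et.injective (Subtype.ext hij)
  refine ⟨fun i => Hf (f i), fun i => td_Hb (Q.hdeg (f i).1) (f i).2, ?_⟩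
  have h1 : LinearIndependent ℝ (fun x : b => ρ x) := hb3
  have hinj : Function.Injective (fun i => (⟨f i, hfb i⟩ : b)) := by
    intro i j hij
    have h2 : f i = f j := congrArg (fun x : b => x.1) hij
    exact hfinj h2
  exact h1.comp (fun i => (⟨f i, hfb i⟩ : b)) hinj

end Pool.Agent.LK
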